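import Pool.Agent.Helper11.PK.Defs

/-! # Packet LIFTP of project PK (MP_1f931d_al): embedding problems for subgroups of finite
`p`-power index in a parafree group. -/

namespace Pool.Agent.Helper75.PK

universe u v w

/-- **LIFTP.** -/
theorem liftp {X : Type v} {G : Type u} [Group G] (s : FreeGroup X →* G) (p : ℕ)
    (G0 : Subgroup G)
    (hext : ∀ {E : Type u} [Group E] [Finite E] (_ : IsPGroup p E),
      (∀ ψ : (G0.comap s) →* E, ∃ ψ' : G0 →* E, ∀ w : (G0.comap s), ψ' ⟨s w, w.2⟩ = ψ w) ∧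
      (∀ ψ₁ ψ₂ : G0 →* E, (∀ w : (G0.comap s), ψ₁ ⟨s w, w.2⟩ = ψ₂ ⟨s w, w.2⟩) → ψ₁ = ψ₂))
    {Q₁ Q₂ : Type u} [Group Q₁] [Group Q₂] [Finite Q₁] [Finite Q₂] (h1 : IsPGroup p Q₁)
    (h2 : IsPGroup p Q₂) (θ : Q₂ →* Q₁) (hθ : Function.Surjective θ) (φ : G0 →* Q₁) :
    ∃ φ' : G0 →* Q₂, θ.comp φ' = φ := by
  classical
  have : IsFreeGroup (G0.comap s) := subgroupIsFreeOfIsFree _
  let f : (G0.comap s) →* G0 := (s.comp (G0.comap s).subtype).codRestrict G0 (fun w => w.2)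
  have hf : ∀ w : (G0.comap s), f w = ⟨s w, w.2⟩ := fun w => rfl
  let g : IsFreeGroup.Generators (G0.comap s) → Q₂ :=
    fun x => Function.surjInv hθ (φ (f (IsFreeGroup.of x)))
  let ψ : (G0.comap s) →* Q₂ := IsFreeGroup.lift g
  have hψ : θ.comp ψ = φ.comp f := by
    apply IsFreeGroup.ext_hom
    intro x
    change θ (ψ (IsFreeGroup.of x)) = φ (f (IsFreeGroup.of x))
    have : ψ (IsFreeGroup.of x) = g x := IsFreeGroup.lift_of g x
    rw [this]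
    exact Function.surjInv_eq hθ _
  obtain ⟨ψ', hψ'⟩ := (hext h2).1 ψ
  refine ⟨ψ', (hext h1).2 _ _ ?_⟩
  intro w
  have := DFunLike.congr_fun hψ w
  change θ (ψ' ⟨s w, w.2⟩) = φ ⟨s w, w.2⟩
  rw [hψ' w]
  exact this

end Pool.Agent.Helper75.PK
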